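import Pool.Agent.H31.FW.TargetsL
import Pool.Agent.H90.WM.All

/-!
# Board fw_modules, row MX: the bound of Weil for the mixed sums
-/

set_option autoImplicit false

namespace Pool.Agent.H90.FW.MX

open Pool.Agent.H31.FW

theorem pf_MX : Q_MX := fun F _ _ χ ψ h hχ hh => Pool.Agent.H90.WM.weil F χ hχ ψ h hh

end Pool.Agent.H90.FW.MX
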