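import Pool.Agent.H31.FW.TargetsL
import Pool.Agent.H59.BG.L1
import Pool.Agent.H49.BG.GL

/-!
# The complete sum modulo an ideal
-/

set_option autoImplicit false

open NumberField UniqueFactorizationMonoid

namespace Pool.Agent.H90.FW.GL

open Pool.Agent.H31.FW Pool.Agent.H23.LB
open Pool.Agent.H29.TC (dvs LC MC AC)
open Pool.Agent.H23.BG (Ac)
open Pool.Agent.H49.BG (gl_ac gl_nf gl_cop)
open Pool.Agent.H59.BG.L1 (Ac_ge)

variable {K : Type} [Field K] [NumberField K]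

theorem nf_mul (I J : Ideal (𝓞 K)) : Nf K (I * J) = Nf K I * Nf K J := by
  unfold Nf
  rw [map_mul, Nat.cast_mul]

theorem nf_top : Nf K (⊤ : Ideal (𝓞 K)) = 1 := by
  unfold Nf
  rw [Ideal.absNorm_top]
  simp

theorem nf_pow (P : Ideal (𝓞 K)) (k : ℕ) : Nf K (P ^ k) = Nf K P ^ k := by
  unfold Nf
  rw [map_pow, Nat.cast_pow]

theorem pr_sup {R : Type} [CommRing R] {f g x : Ideal R} (h : f ⊔ g = ⊤) :
    x ⊔ f * g = (x ⊔ f) * (x ⊔ g) := by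
  have h1 : x * f ⊔ x * g = x := by
    rw [← Ideal.mul_sup, h, Ideal.mul_top]
  rw [Ideal.sup_mul, Ideal.mul_sup, Ideal.mul_sup, mul_comm f x]
  apply le_antisymm
  · refine sup_le ?_ (le_sup_of_le_right le_sup_right)
    calc x = x * f ⊔ x * g := h1.symm
      _ ≤ _ := sup_le (le_sup_of_le_right le_sup_left) (le_sup_of_le_left le_sup_right)
  · refine sup_le (sup_le (le_sup_of_le_left Ideal.mul_le_left)
      (le_sup_of_le_left Ideal.mul_le_left)) ?_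
    exact sup_le (le_sup_of_le_left Ideal.mul_le_left) le_sup_right

/-- the greatest common divisor with a power of a prime -/
theorem sup_pow {P g : Ideal (𝓞 K)} (hP : P.IsPrime) (hb : P ≠ ⊥) {s e : ℕ} (h1 : g ≤ P ^ s)
    (h2 : ¬ g ≤ P ^ (s + 1)) (hse : s ≤ e) : g ⊔ P ^ e = P ^ s := by
  obtain ⟨c, rfl⟩ := Ideal.dvd_iff_le.2 h1
  have hc : ¬ c ≤ P := by
    intro hc
    apply h2
    rw [pow_succ]
    exact Ideal.mul_mono_right hc
  have hm : P.IsMaximal := hP.isMaximal hb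
  have h3 : c ⊔ P = ⊤ := by
    rw [sup_comm]
    exact hm.1.2 _ (left_lt_sup.2 hc)
  have h4 : c ⊔ P ^ (e - s) = ⊤ := Ideal.sup_pow_eq_top h3
  have h5 : P ^ e = P ^ s * P ^ (e - s) := by
    rw [← pow_add]
    congr 1
    omega
  rw [h5, ← Ideal.mul_sup, h4, Ideal.mul_top]

theorem lq_left {g f₁ f₂ P : Ideal (𝓞 K)} (hP : P.IsPrime) (h : f₁ ⊔ f₂ = ⊤) (h1 : f₁ ≤ P)
    (hL : LQ g (f₁ * f₂) P) : LQ g f₁ P := by
  have h2 : f₂ ⊔ P = ⊤ := by
    rw [eq_top_iff, ← h]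
    exact sup_le (h1.trans le_sup_right) le_sup_left
  have key : ∀ c : ℕ, f₁ * f₂ ≤ P ^ c → f₁ ≤ P ^ c := by
    intro c hc
    have h3 : f₂ ⊔ P ^ c = ⊤ := Ideal.sup_pow_eq_top h2
    calc f₁ = f₁ * (f₂ ⊔ P ^ c) := by rw [h3, Ideal.mul_top]
      _ = f₁ * f₂ ⊔ f₁ * P ^ c := Ideal.mul_sup _ _ _
      _ ≤ P ^ c := sup_le hc Ideal.mul_le_right
  rcases hL with ⟨h3, h4⟩ | ⟨h3, s, h4, h5⟩
  · exact Or.inl ⟨h3, fun h5 => h4 (Ideal.mul_le_left.trans h5)⟩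
  · exact Or.inr ⟨h3, s, h4, key _ h5⟩

/-- the statement of the induction -/
def GS (K : Type) [Field K] [NumberField K] (n : ℕ) (g f : Ideal (𝓞 K)) : Prop :=
  f ≠ ⊥ → ∃ S : Finset (Ideal (𝓞 K)), (∀ P ∈ S, P.IsPrime ∧ f ≤ P) ∧
    ((∀ P : Ideal (𝓞 K), P.IsPrime → f ≤ P → LQ g f P) →
    ∀ [Fintype (𝓞 K ⧸ f)] (η θ : 𝓞 K ⧸ f → ℂ), LC f η → AC θ → ∀ h ∈ g,
      ‖cs η θ (Ideal.Quotient.mk f h)‖ ^ 2 * Nf K (g ⊔ f) ≤
      (∏ P ∈ S, Ac K n P) ^ 2 * (Nf K f * Nf K (Ideal.span {h} ⊔ f) ^ 2))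

theorem gl_top (n : ℕ) (g : Ideal (𝓞 K)) : GS K n g ⊤ := by
  intro _
  refine ⟨∅, by simp, ?_⟩
  intro _ _ η θ hη hθ h _
  have hs : Subsingleton (𝓞 K ⧸ (⊤ : Ideal (𝓞 K))) := inferInstance
  have he : ∀ x, η x = 1 := fun x => by
    rw [← hη.mc.one]
    exact congrArg η (Subsingleton.elim _ _)
  have ht : θ 0 = 1 := hθ.zero
  have hc : cs η θ (Ideal.Quotient.mk (⊤ : Ideal (𝓞 K)) h) = 1 := by
    unfold cs
    rw [Fintype.sum_subsingleton _ 0]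
    simp [he, ht]
  rw [hc, sup_top_eq, sup_top_eq, nf_top]
  simp

theorem gl_prod (hCR : Q_CR) (n : ℕ) (g : Ideal (𝓞 K)) {f₁ f₂ : Ideal (𝓞 K)}
    (hf : f₁ ⊔ f₂ = ⊤) (h1 : GS K n g f₁) (h2 : GS K n g f₂) : GS K n g (f₁ * f₂) := by
  classical
  intro hne
  have hf1 : f₁ ≠ ⊥ := by rintro rfl; simp at hne
  have hf2 : f₂ ≠ ⊥ := by rintro rfl; simp at hne
  obtain ⟨S, hS, HS⟩ := h1 hf1
  obtain ⟨T, hT, HT⟩ := h2 hf2
  refine ⟨S ∪ T, ?_, ?_⟩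
  · intro P hP
    rcases Finset.mem_union.1 hP with h | h
    · exact ⟨(hS P h).1, Ideal.mul_le_left.trans (hS P h).2⟩
    · exact ⟨(hT P h).1, Ideal.mul_le_right.trans (hT P h).2⟩
  · intro hL _ η θ hη hθ h hh
    have : Fintype (𝓞 K ⧸ f₁) := @Fintype.ofFinite _ (Ideal.finiteQuotientOfFreeOfNeBot f₁ hf1)
    have : Fintype (𝓞 K ⧸ f₂) := @Fintype.ofFinite _ (Ideal.finiteQuotientOfFreeOfNeBot f₂ hf2)
    obtain ⟨η₁, θ₁, η₂, θ₂, l1, a1, l2, a2, hc⟩ := hCR K f₁ f₂ hf1 hf2 hf η θ hη hθ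
    have L1 : ∀ P : Ideal (𝓞 K), P.IsPrime → f₁ ≤ P → LQ g f₁ P := fun P hP h3 =>
      lq_left hP hf h3 (hL P hP (Ideal.mul_le_left.trans h3))
    have L2 : ∀ P : Ideal (𝓞 K), P.IsPrime → f₂ ≤ P → LQ g f₂ P := fun P hP h3 => by
      have h4 := hL P hP (Ideal.mul_le_right.trans h3)
      rw [mul_comm] at h4
      exact lq_left hP (by rw [sup_comm]; exact hf) h3 h4
    have B1 := HS L1 η₁ θ₁ l1 a1 h hh
    have B2 := HT L2 η₂ θ₂ l2 a2 h hh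
    have hd : Disjoint S T := by
      rw [Finset.disjoint_left]
      intro P h3 h4
      have h5 : f₁ ⊔ f₂ ≤ P := sup_le (hS P h3).2 (hT P h4).2
      rw [hf, top_le_iff] at h5
      exact (hS P h3).1.ne_top h5
    rw [Finset.prod_union hd, hc h, norm_mul, pr_sup hf, pr_sup hf, nf_mul, nf_mul, nf_mul]
    calc (‖cs η₁ θ₁ (Ideal.Quotient.mk f₁ h)‖ * ‖cs η₂ θ₂ (Ideal.Quotient.mk f₂ h)‖) ^ 2 *
          (Nf K (g ⊔ f₁) * Nf K (g ⊔ f₂))
        = (‖cs η₁ θ₁ (Ideal.Quotient.mk f₁ h)‖ ^ 2 * Nf K (g ⊔ f₁)) *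
          (‖cs η₂ θ₂ (Ideal.Quotient.mk f₂ h)‖ ^ 2 * Nf K (g ⊔ f₂)) := by ring
      _ ≤ ((∏ P ∈ S, Ac K n P) ^ 2 * (Nf K f₁ * Nf K (Ideal.span {h} ⊔ f₁) ^ 2)) *
          ((∏ P ∈ T, Ac K n P) ^ 2 * (Nf K f₂ * Nf K (Ideal.span {h} ⊔ f₂) ^ 2)) := by
        refine mul_le_mul B1 B2 (mul_nonneg (sq_nonneg _) (gl_nf _)) ?_
        exact mul_nonneg (sq_nonneg _) (mul_nonneg (gl_nf _) (sq_nonneg _))
      _ = _ := by ring

theorem gl_pow (hL1 : Q_L1) (hL2 : Q_L2) (hLE : Q_LE) (hLO : Q_LO) (n : ℕ)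
    (hn : Module.finrank ℚ K = n) (g : Ideal (𝓞 K)) {P : Ideal (𝓞 K)} (e : ℕ)
    (hP : Prime P) : GS K n g (P ^ e) := by
  classical
  have hPp : P.IsPrime := Ideal.isPrime_of_prime hP
  have hPb : P ≠ ⊥ := hP.ne_zero
  rcases Nat.lt_or_ge e 1 with h0 | h1
  · have : e = 0 := by omega
    subst this
    rw [pow_zero, Ideal.one_eq_top]
    exact gl_top n g
  intro _
  refine ⟨{P}, ?_, ?_⟩
  · intro Q hQ
    rw [Finset.mem_singleton] at hQ
    subst hQ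
    exact ⟨hPp, Ideal.pow_le_self (by omega)⟩
  intro hL _ η θ hη hθ h hh
  rw [Finset.prod_singleton]
  have hAc : 4 ≤ Ac K n P := Ac_ge K n P
  have h16 : (16 : ℝ) ≤ Ac K n P ^ 2 := by nlinarith
  rcases hL P hPp (Ideal.pow_le_self (by omega)) with ⟨h3, h4⟩ | ⟨h3, s', h4, h5⟩
  · -- the prime does not divide `g`
    have he : e ≤ 2 := by
      by_contra hcon
      exact h4 (Ideal.pow_le_pow_right (by omega))
    have hg : g ⊔ P ^ e = ⊤ := by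
      have := sup_pow (g := g) hPp hPb (s := 0) (e := e) (by simp) (by simpa using h3)
        (Nat.zero_le e)
      rw [this, pow_zero, Ideal.one_eq_top]
    rw [hg, nf_top, mul_one]
    have hX : 0 ≤ Nf K (P ^ e) * Nf K (Ideal.span {h} ⊔ P ^ e) ^ 2 :=
      mul_nonneg (gl_nf _) (sq_nonneg _)
    refine le_trans ?_ (mul_le_mul_of_nonneg_right h16 hX)
    have he' : e = 1 ∨ e = 2 := by omega
    rcases he' with rfl | rfl
    · exact hL1 K P hPp hPb η θ hη hθ h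
    · exact hL2 K P hPp hPb η θ hη hθ h
  · -- the exponent of the prime in `g`
    have hex : ∃ s : ℕ, ¬ g ≤ P ^ (s + 1) := ⟨s', h4⟩
    obtain ⟨s, hs, hmin⟩ : ∃ s : ℕ, ¬ g ≤ P ^ (s + 1) ∧ ∀ t < s, g ≤ P ^ (t + 1) := by
      refine ⟨Nat.find hex, Nat.find_spec hex, fun t ht => ?_⟩
      have := Nat.find_min hex ht
      push Not at this
      exact this
    have hss : s ≤ s' := by
      by_contra hcon
      exact h4 (hmin s' (by omega))
    have hgs : g ≤ P ^ s := by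
      rcases Nat.eq_zero_or_pos s with rfl | hs0
      · simp
      · have := hmin (s - 1) (by omega)
        rwa [Nat.sub_add_cancel hs0] at this
    have hse : s + 2 ≤ e := by
      have h6 : s' + 2 ≤ e := by
        by_contra hcon
        have h7 : P ^ (s' + 2) < P ^ e :=
          Ideal.pow_right_strictAnti P hPb hPp.ne_top (by omega)
        exact absurd h5 (not_le_of_gt h7)
      omega
    have h2 : (2 : 𝓞 K) ∉ P ^ s := fun h6 => hs (h3 s h6)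
    have hhs : h ∈ P ^ s := hgs hh
    have hg : g ⊔ P ^ e = P ^ s := sup_pow hPp hPb hgs hs (by omega)
    rw [hg]
    by_cases hc : (2 : 𝓞 K) ∈ P ∨ h ∈ P ^ (s + 1) ∨ Even (e - s)
    · exact hLE n K hn P hPp hPb s e h2 hse η θ hη hθ h hhs hc
    · push Not at hc
      obtain ⟨c1, c2, c3⟩ := hc
      rw [Nat.not_even_iff_odd] at c3
      obtain ⟨m, hm⟩ := c3
      have hm1 : 1 ≤ m := by omega
      have hs1 : 1 ≤ s := by
        rcases Nat.eq_zero_or_pos s with rfl | hs0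
        · simp at h2
        · exact hs0
      obtain rfl : e = s + (2 * m + 1) := by omega
      have hB := hLO K P hPp hPb c1 s m hs1 hm1 η θ hη hθ h hhs c2
      have hsp : Ideal.span {h} ⊔ P ^ (s + (2 * m + 1)) = P ^ s := by
        refine sup_pow hPp hPb ?_ ?_ (by omega)
        · rw [Ideal.span_singleton_le_iff_mem]; exact hhs
        · rw [Ideal.span_singleton_le_iff_mem]; exact c2
      rw [hsp, nf_pow, nf_pow]
      have hN : 0 ≤ Nf K P := gl_nf P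
      obtain ⟨k, rfl⟩ : ∃ k, s = k + 1 := ⟨s - 1, by omega⟩
      calc ‖cs η θ (Ideal.Quotient.mk (P ^ (k + 1 + (2 * m + 1))) h)‖ ^ 2 * Nf K P ^ (k + 1)
          = (‖cs η θ (Ideal.Quotient.mk (P ^ (k + 1 + (2 * m + 1))) h)‖ ^ 2 * Nf K P) *
            Nf K P ^ k := by ring
        _ ≤ (4 * Nf K P ^ (2 * (m + 1 + (k + 1)))) * Nf K P ^ k :=
            mul_le_mul_of_nonneg_right hB (pow_nonneg hN k)
        _ = 4 * (Nf K P ^ (k + 1 + (2 * m + 1)) * (Nf K P ^ (k + 1)) ^ 2) := by ring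
        _ ≤ Ac K n P ^ 2 * (Nf K P ^ (k + 1 + (2 * m + 1)) * (Nf K P ^ (k + 1)) ^ 2) := by
            refine mul_le_mul_of_nonneg_right (by linarith) ?_
            exact mul_nonneg (pow_nonneg hN _) (sq_nonneg _)

theorem gl_all (hL1 : Q_L1) (hL2 : Q_L2) (hLE : Q_LE) (hLO : Q_LO) (hCR : Q_CR) (n : ℕ)
    (hn : Module.finrank ℚ K = n) (g f : Ideal (𝓞 K)) : GS K n g f := by
  refine induction_on_coprime f ?_ ?_ ?_ ?_
  · intro h
    exact absurd rfl h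
  · intro x hx
    rw [Ideal.isUnit_iff.1 hx]
    exact gl_top n g
  · intro p i hp
    exact gl_pow hL1 hL2 hLE hLO n hn g i hp
  · intro x y hxy h1 h2
    exact gl_prod hCR n g (gl_cop hxy) h1 h2

theorem pf_GL (hL1 : Q_L1) (hL2 : Q_L2) (hLE : Q_LE) (hLO : Q_LO) (hCR : Q_CR)
    (hAC : Pool.Agent.H23.BG.L_AC) : Q_GL := by
  intro n K _ _ hn g f _ hf hL _ η θ hη hθ h hh
  obtain ⟨S, hS, HS⟩ := gl_all hL1 hL2 hLE hLO hCR n hn g f hf
  refine (HS hL η θ hη hθ h hh).trans ?_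
  refine mul_le_mul_of_nonneg_right ?_ (mul_nonneg (gl_nf _) (sq_nonneg _))
  exact pow_le_pow_left₀ (Finset.prod_nonneg fun P _ => gl_ac n P) (hAC n K hn f S hf hS) 2

end Pool.Agent.H90.FW.GL
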