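import Pool.Agent.H31.FW.TargetsG
import Pool.Agent.H26.THC.TR1

/-!
# (TR) the transfer by Gauss sums
-/

set_option autoImplicit false

open NumberField NumberField.InfinitePlace NumberField.Units
  NumberField.Units.dirichletUnitTheorem MeasureTheory Set Filter Complex
open scoped nonZeroDivisors ENNReal

namespace Pool.Agent.H90.FW.TR

open Pool.Agent.H31.FW
open Pool.Agent.H28.RC hiding cf gS conj_sg
open Pool.Agent.H25.HK Pool.Agent.H23.LB Pool.Agent.H29.TC Pool.Agent.H26.GLA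
open Pool.Agent.H26.THC (exists_rep mem_l_mul mul_mono_FI key_iff crt smul_mem_FI sum_rep eps
  eps_add eps_norm eps_one_iff eps_of_mem mul_du gen_w cq_eq gn_mono)

theorem tsum_fib {Q Z : Type} [Fintype Q] (φ : Z → Q) (b : Z → ℂ) (hb : Summable fun z => ‖b z‖)
    (_ : Q → ℂ) : ∃ b' : Q → ℂ, ∀ h : Q → ℂ, ∑' z, h (φ z) * b z = ∑ q, h q * b' q := by
  classical
  refine ⟨fun q => ∑' z, if φ z = q then b z else 0, fun h => ?_⟩
  have hs : ∀ q : Q, Summable fun z => if φ z = q then b z else 0 := by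
    intro q
    refine Summable.of_norm_bounded hb fun z => ?_
    split_ifs
    · exact le_rfl
    · rw [norm_zero]; exact norm_nonneg _
  have h1 : ∀ z, h (φ z) * b z = ∑ q, h q * (if φ z = q then b z else 0) := by
    intro z
    simp
  rw [tsum_congr h1, Summable.tsum_finsetSum fun q _ => (hs q).mul_left (h q)]
  refine Finset.sum_congr rfl fun q _ => ?_
  rw [tsum_mul_left]

theorem card_prod {K : Type} [Field K] [NumberField K] (l f1 : Ideal (𝓞 K))
    [Fintype (𝓞 K ⧸ l)] [Fintype (𝓞 K ⧸ f1)] :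
    (Fintype.card ((𝓞 K ⧸ l) × (𝓞 K ⧸ f1)) : ℝ) = Nf K (l * f1) := by
  unfold Nf
  rw [map_mul, Ideal.absNorm_apply, Ideal.absNorm_apply, Submodule.cardQuot_apply,
    Submodule.cardQuot_apply, Fintype.card_prod, Nat.card_eq_fintype_card,
    Nat.card_eq_fintype_card]

/-- the image of `g` is essential -/
theorem essential {K : Type} [Field K] [NumberField K] {l g m : Ideal (𝓞 K)} (hG : GQ l g m)
    (w : 𝓞 K ⧸ (g * m)) (hw : w ≠ 0) :
    ∃ r : 𝓞 K ⧸ (g * m), r * w ≠ 0 ∧ r * w ∈ g.map (Ideal.Quotient.mk (g * m)) := by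
  have hf1 : g * m ≠ ⊥ := mul_ne_zero hG.g_ne hG.q_ne
  obtain ⟨w0, rfl⟩ := Ideal.Quotient.mk_surjective w
  have hw0 : w0 ∉ g * m := fun h => hw (Ideal.Quotient.eq_zero_iff_mem.mpr h)
  obtain ⟨J, hJ⟩ := Ideal.dvd_iff_le.mpr (le_sup_right : g * m ≤
    Ideal.span {w0} ⊔ g * m)
  have hJt : J ≠ ⊤ := by
    rintro rfl
    rw [Ideal.mul_top] at hJ
    apply hw0
    rw [hJ]
    exact (le_sup_left : Ideal.span {w0} ≤ _) (Ideal.mem_span_singleton_self w0)
  obtain ⟨P, hPm, hJP⟩ := Ideal.exists_le_maximal J hJt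
  have hPp := hPm.isPrime
  have hf1P : g * m ≤ P := by
    rw [hJ]
    exact Ideal.mul_le_right.trans hJP
  have hmP : m ≤ P := by
    rcases (hPp.mul_le).mp hf1P with h3 | h3
    · exact hG.rad P hPp h3
    · exact h3
  have hP0 : P ≠ ⊥ := fun h => hf1 (le_bot_iff.mp (h ▸ hf1P))
  obtain ⟨J', hJ'⟩ := Ideal.dvd_iff_le.mpr hJP
  obtain ⟨m', hm'⟩ := Ideal.dvd_iff_le.mpr hmP
  have hI0 : Ideal.span {w0} ⊔ g * m ≠ ⊥ := by
    intro h
    rw [h, Ideal.bot_mul] at hJ
    exact hf1 hJ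
  have hD : (Ideal.span {w0} ⊔ g * m) * J' = g * m' := by
    have h1 : P * ((Ideal.span {w0} ⊔ g * m) * J') = P * (g * m') := by
      calc P * ((Ideal.span {w0} ⊔ g * m) * J')
          = (Ideal.span {w0} ⊔ g * m) * (P * J') := by ring
        _ = g * m := by rw [← hJ', ← hJ]
        _ = g * (P * m') := by rw [← hm']
        _ = P * (g * m') := by ring
    exact mul_left_cancel₀ hP0 h1
  have hDne : ¬ ((Ideal.span {w0} ⊔ g * m) * J' ≤ g * m) := by
    intro h
    have h1 : g * m = P * ((Ideal.span {w0} ⊔ g * m) * J') := by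
      calc g * m = (Ideal.span {w0} ⊔ g * m) * J := hJ
        _ = (Ideal.span {w0} ⊔ g * m) * (P * J') := by rw [← hJ']
        _ = P * ((Ideal.span {w0} ⊔ g * m) * J') := by ring
    have h2 : P * ((Ideal.span {w0} ⊔ g * m) * J') ≤ P * (g * m) :=
      Ideal.mul_mono_right h
    rw [← h1] at h2
    have h3 : P * (g * m) ∣ g * m := Ideal.dvd_iff_le.mpr h2
    have h4 : P * (g * m) ∣ 1 * (g * m) := by rw [one_mul]; exact h3
    have h5 := (mul_dvd_mul_iff_right (show (g * m) ≠ 0 from hf1)).mp h4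
    have h6 := Ideal.isUnit_iff.mp (isUnit_of_dvd_one h5)
    exact hPm.ne_top h6
  obtain ⟨x, hxD, hxf⟩ := SetLike.not_le_iff_exists.mp hDne
  have hxI : x ∈ Ideal.span {w0} ⊔ g * m :=
    (Ideal.mul_le_left : (Ideal.span {w0} ⊔ g * m) * J' ≤ _) hxD
  have hxg : x ∈ g := by
    rw [hD] at hxD
    exact (Ideal.mul_le_left : g * m' ≤ g) hxD
  obtain ⟨y, hy, s, hs, hys⟩ := Submodule.mem_sup.mp hxI
  obtain ⟨r, rfl⟩ := Ideal.mem_span_singleton'.mp hy
  have h6 : Ideal.Quotient.mk (g * m) r * Ideal.Quotient.mk (g * m) w0 =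
      Ideal.Quotient.mk (g * m) x := by
    rw [← map_mul, Ideal.Quotient.eq]
    have h7 : r * w0 - x = -s := by linear_combination hys
    rw [h7]
    exact neg_mem hs
  refine ⟨Ideal.Quotient.mk (g * m) r, ?_, ?_⟩
  · rw [h6]
    intro h7
    exact hxf (Ideal.Quotient.eq_zero_iff_mem.mp h7)
  · rw [h6]
    exact Ideal.mem_map_of_mem _ hxg

theorem pf_TR (_ : Pool.Agent.H29.TC.T_FG) (hFP : Pool.Agent.H29.TC.T_FP2) : Q_TR := by
  intro K _ _ l g m hG η hη M x₀ y₀ c X X₁ Y hM hx hy hc1 hc2 hX hX₁ hY b hb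
  classical
  have hf1 : g * m ≠ ⊥ := mul_ne_zero hG.g_ne hG.q_ne
  have hf : l * (g * m) ≠ ⊥ := mul_ne_zero hG.l_ne hf1
  have hfl : l * (g * m) ≤ l := Ideal.mul_le_left
  have hf1g : g * m ≤ g := Ideal.mul_le_left
  have hff1 : l * (g * m) ≤ g * m := Ideal.mul_le_right
  have hcop : l ⊔ g * m = ⊤ := hG.cop
  have hfin1 : Finite (𝓞 K ⧸ l) := Ideal.finiteQuotientOfFreeOfNeBot l hG.l_ne
  have hfin2 : Finite (𝓞 K ⧸ (g * m)) := Ideal.finiteQuotientOfFreeOfNeBot _ hf1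
  have hft1 : Fintype (𝓞 K ⧸ l) := Fintype.ofFinite _
  have hft2 : Fintype (𝓞 K ⧸ (g * m)) := Fintype.ofFinite _
  have hf0 : ((l * (g * m) : Ideal (𝓞 K)) : FI K) ≠ 0 := FractionalIdeal.coeIdeal_ne_zero.mpr hf
  have hL : ((l * (g * m) : Ideal (𝓞 K)) : FI K) * M ≠ 0 := mul_ne_zero hf0 hM
  -- lifts
  have hex : ∀ q : (𝓞 K ⧸ l) × (𝓞 K ⧸ (g * m)), ∃ a : 𝓞 K,
      Ideal.Quotient.mk l a = q.1 ∧ Ideal.Quotient.mk (g * m) a = q.2 := by
    rintro ⟨a, b⟩
    obtain ⟨a0, rfl⟩ := Ideal.Quotient.mk_surjective a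
    obtain ⟨b0, rfl⟩ := Ideal.Quotient.mk_surjective b
    obtain ⟨c0, h1, h2⟩ := crt hcop a0 b0
    exact ⟨c0, Ideal.Quotient.eq.mpr h1, Ideal.Quotient.eq.mpr h2⟩
  choose lift hl1 hl2 using hex
  have hαex : ∀ x : K, ∃ a : 𝓞 K, x ∈ M →
      x - (a : K) * x₀ ∈ ((l * (g * m) : Ideal (𝓞 K)) : FI K) * M := by
    intro x
    by_cases h : x ∈ M
    · obtain ⟨a, -, ha⟩ := hx.gen x h
      exact ⟨a, fun _ => ha⟩
    · exact ⟨0, fun h' => absurd h' h⟩
  choose α hα using hαex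
  have hβex : ∀ y : K, ∃ a : 𝓞 K, y ∈ du K (((l * (g * m) : Ideal (𝓞 K)) : FI K) * M) →
      y - (a : K) * y₀ ∈ ((l * (g * m) : Ideal (𝓞 K)) : FI K) *
        du K (((l * (g * m) : Ideal (𝓞 K)) : FI K) * M) := by
    intro x
    by_cases h : x ∈ du K (((l * (g * m) : Ideal (𝓞 K)) : FI K) * M)
    · obtain ⟨a, -, ha⟩ := hy.gen x h
      exact ⟨a, fun _ => ha⟩
    · exact ⟨0, fun h' => absurd h' h⟩
  choose β hβ using hβex
  -- the additive character
  let θ : (𝓞 K ⧸ l) × (𝓞 K ⧸ (g * m)) → ℂ := fun q => eps K ((lift q : K) * (x₀ * y₀))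
  have hθ : ∀ a : 𝓞 K, θ (Ideal.Quotient.mk l a, Ideal.Quotient.mk (g * m) a) =
      eps K ((a : K) * (x₀ * y₀)) := by
    intro a
    let q : (𝓞 K ⧸ l) × (𝓞 K ⧸ (g * m)) :=
      (Ideal.Quotient.mk l a, Ideal.Quotient.mk (g * m) a)
    change eps K ((lift q : K) * (x₀ * y₀)) = _
    have h1 : lift q - a ∈ l := Ideal.Quotient.eq.mp (hl1 q)
    have h2 : lift q - a ∈ g * m := Ideal.Quotient.eq.mp (hl2 q)
    have h3 : lift q - a ∈ l * (g * m) := (mem_l_mul hcop _).mpr ⟨h1, h2⟩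
    have h4 : ((lift q - a : 𝓞 K) : K) = (lift q : K) - (a : K) :=
      map_sub (algebraMap (𝓞 K) K) _ _
    have h5 : (lift q : K) * (x₀ * y₀) = (a : K) * (x₀ * y₀) +
        (((lift q - a : 𝓞 K) : K) * x₀) * y₀ := by
      rw [h4]; ring
    rw [h5, eps_add, eps_of_mem hL ((hx.iff _ _ le_rfl).mpr h3) hy.mem, mul_one]
  have hθmul : ∀ a b : 𝓞 K, (Ideal.Quotient.mk l a, Ideal.Quotient.mk (g * m) a) *
      (Ideal.Quotient.mk l b, Ideal.Quotient.mk (g * m) b) =
      (Ideal.Quotient.mk l (a * b), Ideal.Quotient.mk (g * m) (a * b)) := by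
    intro a b
    rw [Prod.mk_mul_mk, map_mul, map_mul]
  have hliftq : ∀ q : (𝓞 K ⧸ l) × (𝓞 K ⧸ (g * m)),
      (Ideal.Quotient.mk l (lift q), Ideal.Quotient.mk (g * m) (lift q)) = q :=
    fun q => Prod.ext (hl1 q) (hl2 q)
  have hAC : AC θ := by
    refine ⟨fun q q' => ?_, fun q => eps_norm _⟩
    have h1 : q + q' = (Ideal.Quotient.mk l (lift q + lift q'),
        Ideal.Quotient.mk (g * m) (lift q + lift q')) := by
      conv_lhs => rw [← hliftq q, ← hliftq q']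
      rw [Prod.mk_add_mk, map_add, map_add]
    rw [h1, hθ]
    have h2 : ((lift q + lift q' : 𝓞 K) : K) = (lift q : K) + (lift q' : K) :=
      map_add (algebraMap (𝓞 K) K) _ _
    rw [h2, add_mul, eps_add]
  have hgen : ∀ w : (𝓞 K ⧸ l) × (𝓞 K ⧸ (g * m)),
      (∀ r : (𝓞 K ⧸ l) × (𝓞 K ⧸ (g * m)), θ (r * w) = 1) → w = 0 := by
    intro w hw
    have h1 : lift w ∈ l * (g * m) := by
      refine gen_w hf hM hx hy (lift w) fun r => ?_
      have h2 := hw (Ideal.Quotient.mk l r, Ideal.Quotient.mk (g * m) r)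
      conv_lhs at h2 => rw [← hliftq w]
      rw [hθmul, hθ] at h2
      exact h2
    obtain ⟨h2, h3⟩ := (mem_l_mul hcop _).mp h1
    rw [← hliftq w, Ideal.Quotient.eq_zero_iff_mem.mpr h2, Ideal.Quotient.eq_zero_iff_mem.mpr h3]
    rfl
  have hess := essential hG
  -- the coefficients at l
  let c' : 𝓞 K ⧸ l → ℂ := fun q => c ((lift (q, 0) : K) * x₀)
  have hc' : ∀ x ∈ M, c x = c' (Ideal.Quotient.mk l (α x)) := by
    intro x hxM
    have h1 := hα x hxM
    have h2 : α x - lift (Ideal.Quotient.mk l (α x), 0) ∈ l :=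
      Ideal.Quotient.eq.mp (hl1 (Ideal.Quotient.mk l (α x), 0)).symm
    have h3 : x = (lift (Ideal.Quotient.mk l (α x), 0) : K) * x₀ +
        ((((α x - lift (Ideal.Quotient.mk l (α x), 0) : 𝓞 K) : K) * x₀) +
        (x - (α x : K) * x₀)) := by
      have h4 : ((α x - lift (Ideal.Quotient.mk l (α x), 0) : 𝓞 K) : K) =
        (α x : K) - (lift (Ideal.Quotient.mk l (α x), 0) : K) :=
        map_sub (algebraMap (𝓞 K) K) _ _
      rw [h4]; ring
    conv_lhs => rw [h3]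
    refine hc2 _ (smul_mem_FI M _ hx.mem) _ (fadd K _ ?_ (mul_mono_FI hfl M h1))
    exact (hx.iff _ l hfl).mpr h2
  have hc'1 : ∀ q, ‖c' q‖ ≤ 1 := fun q => hc1 _ (smul_mem_FI M _ hx.mem)
  -- the subgroup G
  let G : Ideal (𝓞 K ⧸ (g * m)) := g.map (Ideal.Quotient.mk (g * m))
  have hmkG : ∀ a b : 𝓞 K, Ideal.Quotient.mk (g * m) a - Ideal.Quotient.mk (g * m) b ∈ G ↔
      a - b ∈ g := by
    intro a b
    rw [← map_sub]
    exact Ideal.mem_quotient_iff_mem hf1g
  obtain ⟨XB, hXB⟩ := exists_rep (𝓞 K ⧸ (g * m)) G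
  -- the transform
  let T : 𝓞 K ⧸ l → 𝓞 K ⧸ (g * m) → (𝓞 K ⧸ l) × (𝓞 K ⧸ (g * m)) → ℂ := fun a b0 q =>
    ∑ a' : 𝓞 K ⧸ (g * m), if a' - b0 ∈ G then c' a * η a' * θ ((a, a') * q) else 0
  have hTG : ∀ a b b' q, b - b' ∈ G → T a b q = T a b' q := by
    intro a b b' q h
    refine Finset.sum_congr rfl fun a' _ => ?_
    have h1 : a' - b ∈ G ↔ a' - b' ∈ G := by
      constructor
      · intro h2
        have h3 : a' - b' = (a' - b) + (b - b') := by ring
        rw [h3]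
        exact add_mem h2 h
      · intro h2
        have h3 : a' - b = (a' - b') - (b - b') := by ring
        rw [h3]
        exact sub_mem h2 h
    by_cases h2 : a' - b ∈ G
    · rw [if_pos h2, if_pos (h1.mp h2)]
    · rw [if_neg h2, if_neg fun h3 => h2 (h1.mpr h3)]
  have hfte : ∀ r ∈ M, ∀ y ∈ du K (((l * (g * m) : Ideal (𝓞 K)) : FI K) * M), ∀ b : 𝓞 K,
      y - (b : K) * y₀ ∈ ((l * (g * m) : Ideal (𝓞 K)) : FI K) *
        du K (((l * (g * m) : Ideal (𝓞 K)) : FI K) * M) →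
      ft K X (cr K (l * g) M (fun x => c x * cq (g * m) η M x₀ x) r) y =
        T (Ideal.Quotient.mk l (α r)) (Ideal.Quotient.mk (g * m) (α r))
          (Ideal.Quotient.mk l b, Ideal.Quotient.mk (g * m) b) := by
    intro r hr y hyM b hb
    let Ψ : 𝓞 K ⧸ l → 𝓞 K ⧸ (g * m) → ℂ := fun a' b' =>
      if a' = Ideal.Quotient.mk l (α r) ∧ b' - Ideal.Quotient.mk (g * m) (α r) ∈ G then
        c' a' * η b' * θ ((a', b') * (Ideal.Quotient.mk l b, Ideal.Quotient.mk (g * m) b))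
      else 0
    have hterm : ∀ x ∈ X, cr K (l * g) M (fun x => c x * cq (g * m) η M x₀ x) r x *
        cexp (2 * Real.pi * I * ((Algebra.trace ℚ K (x * y) : ℚ) : ℂ)) =
        Ψ (Ideal.Quotient.mk l (α x)) (Ideal.Quotient.mk (g * m) (α x)) := by
      intro x hxX
      have hxM := hX.1 x hxX
      have hax := hα x hxM
      have har := hα r hr
      have hiff := key_iff hcop hf1g hx hax har
      have hcond : x - r ∈ ((l * g : Ideal (𝓞 K)) : FI K) * M ↔
          (Ideal.Quotient.mk l (α x) = Ideal.Quotient.mk l (α r) ∧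
          Ideal.Quotient.mk (g * m) (α x) - Ideal.Quotient.mk (g * m) (α r) ∈ G) := by
        rw [hiff, Ideal.Quotient.eq, hmkG]
      unfold cr ci
      by_cases h : x - r ∈ ((l * g : Ideal (𝓞 K)) : FI K) * M
      · have h' := hcond.mp h
        simp only [Ψ]
        rw [if_pos h, if_pos h', one_mul, hc' x hxM,
          cq_eq (g * m) η (gn_mono hx hff1) (α x) x (mul_mono_FI hff1 M hax), hθmul, hθ]
        congr 1
        change eps K (x * y) = _
        have h1 : ((α x * b : 𝓞 K) : K) = (α x : K) * (b : K) :=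
          map_mul (algebraMap (𝓞 K) K) _ _
        have h2 : x * y = ((α x * b : 𝓞 K) : K) * (x₀ * y₀) + (x - (α x : K) * x₀) * y +
            ((α x : K) * x₀) * (y - (b : K) * y₀) := by
          rw [h1]; ring
        have h3 : y - (b : K) * y₀ ∈ du K M := by
          rw [← mul_du hf hM]
          exact hb
        rw [h2, eps_add, eps_add, eps_of_mem hL hax hyM,
          eps_of_mem hM (smul_mem_FI M _ hx.mem) h3, mul_one, mul_one]
      · have h' := fun h2 => h (hcond.mpr h2)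
        simp only [Ψ]
        rw [if_neg h, if_neg h', zero_mul, zero_mul]
    have hbot : (g * m).map (Ideal.Quotient.mk (g * m)) = ⊥ := Ideal.map_quotient_self _
    have huniv : ∀ x : 𝓞 K ⧸ (g * m), ∃! r, r ∈ (Finset.univ : Finset (𝓞 K ⧸ (g * m))) ∧
        x - r ∈ (g * m).map (Ideal.Quotient.mk (g * m)) := by
      intro x
      refine ⟨x, ⟨Finset.mem_univ _, by rw [sub_self]; exact zero_mem _⟩, ?_⟩
      rintro r ⟨-, hr⟩
      rw [hbot, Ideal.mem_bot, sub_eq_zero] at hr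
      exact hr.symm
    have hΨ : ∀ a b b', b - b' ∈ (g * m).map (Ideal.Quotient.mk (g * m)) →
        Ψ a b = Ψ a b' := by
      intro a b b' hbb
      rw [hbot, Ideal.mem_bot, sub_eq_zero] at hbb
      rw [hbb]
    unfold ft
    rw [Finset.sum_congr rfl hterm, sum_rep hcop le_rfl hx X hX Finset.univ huniv α
      (fun x hxM => hα x hxM) Ψ hΨ]
    rw [Finset.sum_eq_single (Ideal.Quotient.mk l (α r))]
    · refine Finset.sum_congr rfl fun b' _ => ?_
      simp only [Ψ]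
      by_cases h : b' - Ideal.Quotient.mk (g * m) (α r) ∈ G
      · rw [if_pos ⟨trivial, h⟩, if_pos h]
      · rw [if_neg fun h2 => h h2.2, if_neg h]
    · intro a' _ ha'
      refine Finset.sum_eq_zero fun b' _ => ?_
      simp only [Ψ]
      rw [if_neg fun h2 => ha' h2.1]
    · intro h
      exact absurd (Finset.mem_univ _) h
  have hgc : Gn (l * (g * m)) M x₀ := hx
  obtain ⟨b', hb'⟩ := tsum_fib
    (fun y : {y : K // y ∈ du K (((l * (g * m) : Ideal (𝓞 K)) : FI K) * M)} =>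
      ((Ideal.Quotient.mk l (β y.1) : 𝓞 K ⧸ l),
        (Ideal.Quotient.mk (g * m) (β y.1) : 𝓞 K ⧸ (g * m))))
    (fun y => b y.1) hb (fun _ => 0)
  have hlhs : ∀ r ∈ X₁, ‖∑' y : {y : K // y ∈ du K (((l * (g * m) : Ideal (𝓞 K)) : FI K) * M)},
      ft K X (cr K (l * g) M (fun x => c x * cq (g * m) η M x₀ x) r) y * b y‖ ^ 2 =
      ‖∑ q, T (Ideal.Quotient.mk l (α r)) (Ideal.Quotient.mk (g * m) (α r)) q *
        b' q‖ ^ 2 := by
    intro r hr
    have hrM := hX₁.1 r hr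
    rw [← hb' (fun q => T (Ideal.Quotient.mk l (α r)) (Ideal.Quotient.mk (g * m) (α r)) q)]
    congr 2
    refine tsum_congr fun y => ?_
    rw [hfte r hrM y.1 y.2 (β y.1) (hβ y.1 y.2)]
  have hrhs : ∀ r ∈ Y, ‖∑' y : {y : K // y ∈ du K (((l * (g * m) : Ideal (𝓞 K)) : FI K) * M)},
      cr K (l * g) (du K (((l * (g * m) : Ideal (𝓞 K)) : FI K) * M))
      (fun y => (starRingEnd ℂ) (cq (g * m) η
        (du K (((l * (g * m) : Ideal (𝓞 K)) : FI K) * M)) y₀ y)) r y * b y‖ ^ 2 =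
      ‖∑ y : 𝓞 K ⧸ (g * m), (if y - Ideal.Quotient.mk (g * m) (β r) ∈ G then
        (starRingEnd ℂ) (η y) * b' (Ideal.Quotient.mk l (β r), y) else 0)‖ ^ 2 := by
    intro r hr
    have hrM := hY.1 r hr
    let H : (𝓞 K ⧸ l) × (𝓞 K ⧸ (g * m)) → ℂ := fun q =>
      if q.1 = Ideal.Quotient.mk l (β r) ∧
        q.2 - Ideal.Quotient.mk (g * m) (β r) ∈ G then (starRingEnd ℂ) (η q.2) else 0
    have hsum : ∑ q, H q * b' q = ∑ y : 𝓞 K ⧸ (g * m),
        (if y - Ideal.Quotient.mk (g * m) (β r) ∈ G then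
        (starRingEnd ℂ) (η y) * b' (Ideal.Quotient.mk l (β r), y) else 0) := by
      rw [Fintype.sum_prod_type, Finset.sum_eq_single (Ideal.Quotient.mk l (β r))]
      · refine Finset.sum_congr rfl fun y _ => ?_
        simp only [H]
        by_cases h : y - Ideal.Quotient.mk (g * m) (β r) ∈ G
        · rw [if_pos ⟨trivial, h⟩, if_pos h]
        · rw [if_neg fun h2 => h h2.2, if_neg h, zero_mul]
      · intro a' _ ha'
        refine Finset.sum_eq_zero fun y _ => ?_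
        simp only [H]
        rw [if_neg fun h2 => ha' h2.1, zero_mul]
      · intro h
        exact absurd (Finset.mem_univ _) h
    rw [← hsum, ← hb' H]
    congr 2
    refine tsum_congr fun y => ?_
    congr 1
    have hyb := hβ y.1 y.2
    have hrb := hβ r hrM
    have hiff := key_iff hcop hf1g hy hyb hrb
    have hcond : y.1 - r ∈ ((l * g : Ideal (𝓞 K)) : FI K) *
        du K (((l * (g * m) : Ideal (𝓞 K)) : FI K) * M) ↔
        (Ideal.Quotient.mk l (β y.1) = Ideal.Quotient.mk l (β r) ∧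
        Ideal.Quotient.mk (g * m) (β y.1) - Ideal.Quotient.mk (g * m) (β r) ∈ G) := by
      rw [hiff, Ideal.Quotient.eq, hmkG]
    unfold cr ci
    simp only [H]
    by_cases h : y.1 - r ∈ ((l * g : Ideal (𝓞 K)) : FI K) *
        du K (((l * (g * m) : Ideal (𝓞 K)) : FI K) * M)
    · rw [if_pos h, if_pos (hcond.mp h), one_mul,
        cq_eq (g * m) η (gn_mono hy hff1) (β y.1) y.1 (mul_mono_FI hff1 _ hyb)]
    · rw [if_neg h, if_neg fun h2 => h (hcond.mpr h2), zero_mul]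
  rw [Finset.sum_congr rfl hlhs, Finset.sum_congr rfl hrhs]
  have s1 := sum_rep hcop hf1g hx X₁ hX₁ XB hXB α (fun x hxM => hα x hxM)
    (fun a b0 => ‖∑ q, T a b0 q * b' q‖ ^ 2) (fun a b1 b2 hbb => by
      have h1 : ∀ q, T a b1 q = T a b2 q := fun q => hTG a b1 b2 q hbb
      simp only [h1])
  have s2 := sum_rep hcop hf1g hy Y hY XB hXB β (fun x hxM => hβ x hxM)
    (fun a b0 => ‖∑ y : 𝓞 K ⧸ (g * m), (if y - b0 ∈ G then
        (starRingEnd ℂ) (η y) * b' (a, y) else 0)‖ ^ 2) (fun a b1 b2 hbb => by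
      have h1 : ∀ y : 𝓞 K ⧸ (g * m), y - b1 ∈ G ↔ y - b2 ∈ G := by
        intro y
        constructor
        · intro h2
          have h3 : y - b2 = (y - b1) + (b1 - b2) := by ring
          rw [h3]
          exact add_mem h2 hbb
        · intro h2
          have h3 : y - b1 = (y - b2) - (b1 - b2) := by ring
          rw [h3]
          exact sub_mem h2 hbb
      simp only [h1])

  rw [s1, s2]
  have h8 := hFP (𝓞 K ⧸ l) (𝓞 K ⧸ (g * m)) G c' η θ hc'1 hη.mc hAC hη.prim hgen hess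
    XB XB hXB hXB b'
  rw [card_prod] at h8
  exact h8

end Pool.Agent.H90.FW.TR
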